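import Pool.Agent.L7h49.OF.Stm2

/-!
# Uniqueness of the closed positive current on an irreducible fibre
-/

set_option autoImplicit false

open Set Filter Topology MeasureTheory
open scoped Manifold ContDiff

noncomputable section

namespace Pool.Agent.L7h32.OF

open Pool.Agent.Y501.SY
open Pool.Agent.N13.TL
open Pool.Agent.L7h49.TS (qq qq_cont int_cont)
open Pool.Agent.R772 (ExactF)
open Pool.Agent.L7h49.OG

section

variable {d : ℕ} {X : Type} [TopologicalSpace X] [ChartedSpace (E d) X]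

theorem smooth_mul [IsManifold (𝓡 d) ∞ X] {k : ℕ} {u : X → ℝ} (hu : SmoothFun (d := d) u)
    {σ : Form d X k} (hσ : IsSmooth σ) : IsSmooth (fun x => u x • σ x : Form d X k) := by
  intro U φ hU hφ
  have h1 : ContDiffOn ℝ ∞ (u ∘ φ) U := contMDiffOn_iff_contDiffOn.1 (hu.comp_contMDiffOn hφ)
  exact h1.smul (hσ U φ hU hφ)

theorem qq_mul (u : X → ℝ) (σ : Form d X 2) (J : End d X) (p : TangentBundle (𝓡 d) X) :
    qq (fun x => u x • σ x : Form d X 2) J p = u p.proj * qq σ J p := rfl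

theorem proj_cont [IsManifold (𝓡 d) ∞ X] : Continuous (Bundle.TotalSpace.proj : TangentBundle (𝓡 d) X → X) :=
  FiberBundle.continuous_proj (E d) (TangentSpace (𝓡 d))

variable [MeasurableSpace (TangentBundle (𝓡 d) X)] {J : End d X}
  {K : Set (TangentBundle (𝓡 d) X)} {μ : Measure (TangentBundle (𝓡 d) X)}

theorem cc_ae (h : CC J K μ) : ∀ᵐ p ∂μ, p ∈ K := by
  have : ∀ᵐ p ∂μ, p ∉ Kᶜ := measure_eq_zero_iff_ae_notMem.1 h.car
  exact this.mono fun x hx => not_not.1 hx

/-- Small neighbourhoods of a point. -/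
theorem small_nhd [IsManifold (𝓡 d) ∞ X] [BorelSpace (TangentBundle (𝓡 d) X)]
    [IsFiniteMeasure μ]
    {x : X} (hx : μ (Bundle.TotalSpace.proj ⁻¹' {x}) = 0) {δ : ENNReal} (hδ : 0 < δ) :
    ∃ V : Set X, IsOpen V ∧ x ∈ V ∧ μ (Bundle.TotalSpace.proj ⁻¹' V) < δ := by
  -- balls in the chart
  let c := chartAt (E d) x
  let V : ℕ → Set X := fun k => c.source ∩ c ⁻¹' Metric.ball (c x) (1 / (k + 1 : ℝ))
  have hopen : ∀ k, IsOpen (V k) := fun k =>
    c.continuousOn.isOpen_inter_preimage c.open_source Metric.isOpen_ball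
  have hmem : ∀ k, x ∈ V k := fun k =>
    ⟨mem_chart_source (E d) x, Metric.mem_ball_self (by positivity)⟩
  have hanti : Antitone V := by
    intro k l hkl y hy
    refine ⟨hy.1, Metric.ball_subset_ball ?_ hy.2⟩
    apply one_div_le_one_div_of_le (by positivity)
    have : (k : ℝ) ≤ l := by exact_mod_cast hkl
    linarith
  have hinter : ⋂ k, V k = {x} := by
    ext y
    rw [mem_iInter, mem_singleton_iff]
    constructor
    · intro hy
      have h1 : c y = c x := by
        apply eq_of_forall_dist_le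
        intro ε hε
        obtain ⟨k, hk⟩ := exists_nat_one_div_lt hε
        exact ((hy k).2.le.trans hk.le)
      exact c.injOn (hy 0).1 (mem_chart_source (E d) x) h1
    · rintro rfl
      exact hmem
  have h1 : Tendsto (fun k => μ (Bundle.TotalSpace.proj ⁻¹' V k)) atTop
      (𝓝 (μ (⋂ k, Bundle.TotalSpace.proj ⁻¹' V k))) := by
    apply tendsto_measure_iInter_atTop
    · intro k
      exact ((hopen k).preimage proj_cont).measurableSet.nullMeasurableSet
    · intro k l hkl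
      exact preimage_mono (hanti hkl)
    · exact ⟨0, measure_ne_top _ _⟩
  rw [← preimage_iInter, hinter, hx] at h1
  obtain ⟨k, hk⟩ := (h1.eventually (gt_mem_nhds hδ)).exists
  exact ⟨V k, hopen k, hmem k, hk⟩

end

section main

variable {n : ℕ} {X : Type} [TopologicalSpace X] [ChartedSpace (E (n + 2)) X]
  [IsManifold (𝓡 (n + 2)) ∞ X] [CompactSpace X] [T2Space X]
  [MeasurableSpace (TangentBundle (𝓡 (n + 2)) X)] [BorelSpace (TangentBundle (𝓡 (n + 2)) X)]
  {J : End (n + 2) X} {τ : Form (n + 2) X 2} {F : Fin n → X → ℝ} {b : Fin n → ℝ}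
  {K : Set (TangentBundle (𝓡 (n + 2)) X)} {Z : Set X}

/-- The comparison of two currents. -/
theorem compare (hJ : IsAlmostComplex J) (hK : IsCompact K)
    (hZc : IsClosed Z) (hKZ : ∀ p ∈ K, p.proj ∈ Z)
    {N : X → Set X} {κ : X → Form (n + 2) X 2} {I : X → Form (n + 2) X 2 → ℝ}
    (hD : ∀ x ∈ Z, Reg (d := n + 2) F x → LocD J τ F b K x (N x) (κ x) (I x))
    (hcr : {x | x ∈ Z ∧ ¬ Reg (d := n + 2) F x}.Countable)
    {μ μ₀ : Measure (TangentBundle (𝓡 (n + 2)) X)} (hμ : CC J K μ) (hμ₀ : CC J K μ₀)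
    (hpt : ∀ x, μ (Bundle.TotalSpace.proj ⁻¹' {x}) = 0)
    (hpt₀ : ∀ x, μ₀ (Bundle.TotalSpace.proj ⁻¹' {x}) = 0) {s₀ s : ℝ}
    (hs : ∀ x ∈ Z, Reg (d := n + 2) F x →
      s₀ * ∫ p, qq (κ x) J p ∂μ = s * ∫ p, qq (κ x) J p ∂μ₀)
    {ρ : Form (n + 2) X 2} (hρ : IsSmooth ρ) :
    s₀ * ∫ p, qq ρ J p ∂μ = s * ∫ p, qq ρ J p ∂μ₀ := by
  classical
  have := hμ.fin
  have := hμ₀.fin
  have hae := cc_ae hμ
  have hae₀ := cc_ae hμ₀
  obtain ⟨C, hC⟩ := hK.exists_bound_of_continuousOn (qq_cont hρ hJ).continuousOn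
  have hC0 : 0 ≤ |C| := abs_nonneg _
  have hC' : ∀ p ∈ K, |qq ρ J p| ≤ |C| := fun p hp => (hC p hp).trans (le_abs_self _)
  -- it is enough to show that the difference is small
  have key : ∀ ε : ℝ, 0 < ε → |s₀ * ∫ p, qq ρ J p ∂μ - s * ∫ p, qq ρ J p ∂μ₀| ≤
      (|s₀| + |s|) * |C| * ε := by
    intro ε hε
    -- the critical points
    have hpt' : ∀ x, (μ + μ₀) (Bundle.TotalSpace.proj ⁻¹' {x}) = 0 := by
      intro x
      rw [Measure.add_apply, hpt, hpt₀, add_zero]
    set Cr : Set X := {x | x ∈ Z ∧ ¬ Reg (d := n + 2) F x} with hCr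
    have : Countable Cr := hcr.to_subtype
    have hε' : ENNReal.ofReal ε ≠ 0 := by
      rw [Ne, ENNReal.ofReal_eq_zero, not_le]
      exact hε
    obtain ⟨δ, hδ, hδs⟩ := ENNReal.exists_pos_sum_of_countable' hε' Cr
    choose V hVo hVm hVs using fun c : Cr => small_nhd (hpt' c) (hδ c)
    set W : Set X := ⋃ c, V c with hW
    have hWo : IsOpen W := isOpen_iUnion hVo
    have hWs : (μ + μ₀) (Bundle.TotalSpace.proj ⁻¹' W) ≤ ENNReal.ofReal ε := by
      rw [hW, preimage_iUnion]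
      refine (measure_iUnion_le _).trans ?_
      exact (ENNReal.tsum_le_tsum fun c => (hVs c).le).trans hδs.le
    -- the covering
    let ι := Option {x : X // x ∈ Z ∧ Reg (d := n + 2) F x}
    let U : ι → Set X := fun i => i.elim W (fun x => N x.1)
    have hUo : ∀ i, IsOpen (U i) := by
      rintro (_ | x)
      · exact hWo
      · exact (hD x.1 x.2.1 x.2.2).isOpen
    have hcov : Z ⊆ ⋃ i, U i := by
      intro x hx
      rw [mem_iUnion]
      by_cases hr : Reg (d := n + 2) F x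
      · exact ⟨some ⟨x, hx, hr⟩, (hD x hx hr).mem⟩
      · exact ⟨none, mem_iUnion.2 ⟨⟨x, hx, hr⟩, hVm _⟩⟩
    obtain ⟨f, hf⟩ := SmoothPartitionOfUnity.exists_isSubordinate (𝓡 (n + 2)) hZc U hUo hcov
    have hfin : {i | (Function.support (f i)).Nonempty}.Finite :=
      f.locallyFinite.finite_nonempty_of_compact
    set t := hfin.toFinset with ht
    have hsum : ∀ x ∈ Z, ∑ i ∈ t, f i x = 1 := by
      intro x hx
      rw [← f.sum_eq_one hx]
      symm
      apply finsum_eq_sum_of_support_subset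
      intro i hi
      rw [Finset.mem_coe, ht, hfin.mem_toFinset]
      exact ⟨x, hi⟩
    have hfs : ∀ i, SmoothFun (d := n + 2) (f i) := fun i => (f i).contMDiff
    -- the pieces
    let g : ι → Form (n + 2) X 2 := fun i x => f i x • ρ x
    have hg : ∀ i, IsSmooth (g i) := fun i => smooth_mul (hfs i) hρ
    have hzero : ∀ x : {x : X // x ∈ Z ∧ Reg (d := n + 2) F x},
        s₀ * ∫ p, qq (g (some x)) J p ∂μ - s * ∫ p, qq (g (some x)) J p ∂μ₀ = 0 := by
      intro x
      have hL := hD x.1 x.2.1 x.2.2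
      have hsup : SuppIn (g (some x)) (N x.1) := by
        refine ⟨tsupport (f (some x)), isClosed_tsupport _, hf (some x), ?_⟩
        intro y hy
        show f (some x) y • ρ y = 0
        rw [image_eq_zero_of_notMem_tsupport hy, zero_smul]
      rw [hL.formula μ hμ _ (hg _) hsup, hL.formula μ₀ hμ₀ _ (hg _) hsup]
      have := hs x.1 x.2.1 x.2.2
      linear_combination (I x.1 (g (some x))) * this
    have hdec : ∀ ν : Measure (TangentBundle (𝓡 (n + 2)) X), IsFiniteMeasure ν →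
        (∀ᵐ p ∂ν, p ∈ K) → ∫ p, qq ρ J p ∂ν = ∑ i ∈ t, ∫ p, qq (g i) J p ∂ν := by
      intro ν hν hνae
      rw [← integral_finsetSum _ fun i _ => int_cont hK hνae (qq_cont (hg i) hJ)]
      apply integral_congr_ae
      filter_upwards [hνae] with p hp
      have h1 : ∀ i, qq (g i) J p = f i p.proj * qq ρ J p := fun i => rfl
      simp only [h1]
      rw [← Finset.sum_mul, hsum _ (hKZ p hp), one_mul]
    -- the total
    have htot : s₀ * ∫ p, qq ρ J p ∂μ - s * ∫ p, qq ρ J p ∂μ₀ =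
        ∑ i ∈ t, (s₀ * ∫ p, qq (g i) J p ∂μ - s * ∫ p, qq (g i) J p ∂μ₀) := by
      rw [hdec μ inferInstance hae, hdec μ₀ inferInstance hae₀, Finset.mul_sum, Finset.mul_sum,
        ← Finset.sum_sub_distrib]
    have hle : |s₀ * ∫ p, qq ρ J p ∂μ - s * ∫ p, qq ρ J p ∂μ₀| ≤
        |s₀ * ∫ p, qq (g none) J p ∂μ - s * ∫ p, qq (g none) J p ∂μ₀| := by
      rw [htot]
      by_cases hn : none ∈ t
      · rw [Finset.sum_eq_single_of_mem none hn]
        rintro (_ | x) _ hx
        · exact absurd rfl hx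
        · exact hzero x
      · rw [Finset.sum_eq_zero]
        · rw [abs_zero]
          exact abs_nonneg _
        · rintro (_ | x) hx
          · exact absurd hx hn
          · exact hzero x
    refine hle.trans ?_
    -- the bound of the critical part
    have hmW : MeasurableSet (Bundle.TotalSpace.proj ⁻¹' W :
        Set (TangentBundle (𝓡 (n + 2)) X)) := (hWo.preimage proj_cont).measurableSet
    have hbd : ∀ ν : Measure (TangentBundle (𝓡 (n + 2)) X), IsFiniteMeasure ν →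
        (∀ᵐ p ∂ν, p ∈ K) → ν (Bundle.TotalSpace.proj ⁻¹' W) ≤ ENNReal.ofReal ε →
        |∫ p, qq (g none) J p ∂ν| ≤ |C| * ε := by
      intro ν hν hνae hνW
      have h1 : ∀ᵐ p ∂ν, ‖qq (g none) J p‖ ≤
          (Bundle.TotalSpace.proj ⁻¹' W).indicator (fun _ => |C|) p := by
        filter_upwards [hνae] with p hp
        have h2 : qq (g none) J p = f none p.proj * qq ρ J p := rfl
        rw [h2, norm_mul, Real.norm_eq_abs, Real.norm_eq_abs, abs_of_nonneg (f.nonneg _ _)]
        by_cases hpW : p.proj ∈ W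
        · rw [indicator_of_mem (show p ∈ Bundle.TotalSpace.proj ⁻¹' W from hpW)]
          have h3 : f none p.proj ≤ 1 := f.le_one _ _
          calc f none p.proj * |qq ρ J p| ≤ 1 * |C| :=
                mul_le_mul h3 (hC' p hp) (abs_nonneg _) zero_le_one
            _ = |C| := one_mul _
        · rw [indicator_of_notMem (show p ∉ Bundle.TotalSpace.proj ⁻¹' W from hpW)]
          have h3 : f none p.proj = 0 := by
            apply image_eq_zero_of_notMem_tsupport
            intro h4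
            exact hpW (hf none h4)
          rw [h3, zero_mul]
      have h2 : ‖∫ p, qq (g none) J p ∂ν‖ ≤
          ∫ p, (Bundle.TotalSpace.proj ⁻¹' W).indicator (fun _ => |C|) p ∂ν := by
        apply norm_integral_le_of_norm_le _ h1
        exact (integrable_const _).indicator hmW
      rw [Real.norm_eq_abs] at h2
      refine h2.trans ?_
      rw [integral_indicator_const _ hmW, smul_eq_mul, mul_comm]
      apply mul_le_mul_of_nonneg_left _ hC0
      exact ENNReal.toReal_le_of_le_ofReal hε.le hνW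
    have h1 := hbd μ inferInstance hae (le_trans (Measure.le_add_right le_rfl _) hWs)
    have h2 := hbd μ₀ inferInstance hae₀ (le_trans (Measure.le_add_left le_rfl _) hWs)
    calc |s₀ * ∫ p, qq (g none) J p ∂μ - s * ∫ p, qq (g none) J p ∂μ₀|
        ≤ |s₀ * ∫ p, qq (g none) J p ∂μ| + |s * ∫ p, qq (g none) J p ∂μ₀| := abs_sub _ _
      _ = |s₀| * |∫ p, qq (g none) J p ∂μ| + |s| * |∫ p, qq (g none) J p ∂μ₀| := by
          rw [abs_mul, abs_mul]
      _ ≤ |s₀| * (|C| * ε) + |s| * (|C| * ε) :=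
          add_le_add (mul_le_mul_of_nonneg_left h1 (abs_nonneg _))
            (mul_le_mul_of_nonneg_left h2 (abs_nonneg _))
      _ = _ := by ring
  have h0 : |s₀ * ∫ p, qq ρ J p ∂μ - s * ∫ p, qq ρ J p ∂μ₀| ≤ 0 := by
    apply le_of_forall_pos_le_add
    intro ε hε
    have hD0 : 0 < (|s₀| + |s|) * |C| + 1 := by positivity
    have h1 := key (ε / ((|s₀| + |s|) * |C| + 1)) (by positivity)
    rw [zero_add]
    refine h1.trans ?_
    rw [mul_div_assoc', div_le_iff₀ hD0]
    nlinarith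
  exact sub_eq_zero.1 (abs_nonpos_iff.1 h0)

end main

/-- A bump function. -/
theorem exists_bump {d : ℕ} {X : Type} [TopologicalSpace X] [ChartedSpace (E d) X]
    [IsManifold (𝓡 d) ∞ X] [T2Space X] {x : X} {W : Set X} (hW : W ∈ 𝓝 x) :
    ∃ u : X → ℝ, SmoothFun (d := d) u ∧ (∀ y, 0 ≤ u y) ∧ tsupport u ⊆ W ∧ 0 < u x := by
  obtain ⟨f, -, hf⟩ := (SmoothBumpFunction.nhds_basis_tsupport (I := 𝓡 d) x).mem_iff.1 hW
  refine ⟨f, f.contMDiff, fun y => f.nonneg, hf, ?_⟩
  rw [f.eq_one]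
  exact one_pos

theorem st_UNI (hPT : S_PT) : S_UNI := by
  intro n X _ _ _ _ _ _ _ J τ F b K Z hJ hτ hτt hF hK hKq hZc hKZ hZb hloc hcr hpre μ₀ hμ₀ hne
  choose! N κ I hD using hloc
  have hpt : ∀ μ : Measure (TangentBundle (𝓡 (n + 2)) X), CC J K μ →
      ∀ x : X, μ (Bundle.TotalSpace.proj ⁻¹' {x}) = 0 := fun μ hμ x =>
    hPT (n + 2) X J τ K μ hJ hτ hK hKq hμ x
  -- a current which is zero on all `κ x` is zero
  have hvan : ∀ μ : Measure (TangentBundle (𝓡 (n + 2)) X), CC J K μ →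
      (∀ x ∈ Z, Reg (d := n + 2) F x → ∫ p, qq (κ x) J p ∂μ = 0) → μ = 0 := by
    intro μ hμ h0
    have := hμ.fin
    have h1 := compare (s₀ := 1) (s := 0) hJ hK hZc hKZ hD hcr hμ hμ (hpt μ hμ) (hpt μ hμ)
      (fun x hx hr => by rw [h0 x hx hr]; ring) hτ
    rw [one_mul, zero_mul] at h1
    have h2 : ∫ p, qq τ J p ∂μ = ∫ _p, (1 : ℝ) ∂μ := by
      apply integral_congr_ae
      filter_upwards [cc_ae hμ] with p hp
      exact hKq p hp
    rw [h2, integral_const, smul_eq_mul, mul_one] at h1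
    rw [← Measure.measure_univ_eq_zero]
    have h3 := (ENNReal.toReal_eq_zero_iff _).1 h1
    exact h3.resolve_right (measure_ne_top _ _)
  -- the ratios
  let R : X → X → Prop := fun x y => ∃ a : ℝ, 0 < a ∧
    ∀ μ : Measure (TangentBundle (𝓡 (n + 2)) X), CC J K μ →
      ∫ p, qq (κ y) J p ∂μ = a * ∫ p, qq (κ x) J p ∂μ
  have hR : ∀ x ∈ {x | x ∈ Z ∧ Reg (d := n + 2) F x}, ∀ y ∈ {x | x ∈ Z ∧ Reg (d := n + 2) F x},
      R x y := by
    intro x hx y hy
    refine hpre.induction₂ R ?_ ?_ ?_ hx hy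
    · intro x hx
      have hLx := hD x hx.1 hx.2
      filter_upwards [mem_nhdsWithin_of_mem_nhds (hLx.isOpen.mem_nhds hLx.mem),
        self_mem_nhdsWithin] with y hyN hy
      have hLy := hD y hy.1 hy.2
      obtain ⟨u, hu, hu0, hut, huy⟩ := exists_bump (d := n + 2)
        (Filter.inter_mem (hLx.isOpen.mem_nhds hyN) (hLy.isOpen.mem_nhds hLy.mem))
      have hex : ∃ z, (∀ j, F j z = b j) ∧ 0 < u z := ⟨y, hZb y hy.1, huy⟩
      have hIx := hLx.ipos u hu hu0 (hut.trans inter_subset_left) hex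
      have hIy := hLy.ipos u hu hu0 (hut.trans inter_subset_right) hex
      refine ⟨I x (fun x => u x • τ x) / I y (fun x => u x • τ x), div_pos hIx hIy, ?_⟩
      intro μ hμ
      have hsm : IsSmooth (fun x => u x • τ x : Form (n + 2) X 2) := smooth_mul hu hτ
      have hsup : ∀ W : Set X, tsupport u ⊆ W →
          SuppIn (fun x => u x • τ x : Form (n + 2) X 2) W := by
        intro W hW
        refine ⟨tsupport u, isClosed_tsupport _, hW, ?_⟩
        intro z hz
        show u z • τ z = 0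
        rw [image_eq_zero_of_notMem_tsupport hz, zero_smul]
      have h1 := hLx.formula μ hμ _ hsm (hsup _ (hut.trans inter_subset_left))
      have h2 := hLy.formula μ hμ _ hsm (hsup _ (hut.trans inter_subset_right))
      rw [h1] at h2
      rw [div_mul_eq_mul_div, eq_div_iff hIy.ne', mul_comm, ← h2]
    · rintro x y z - - - ⟨a, ha, h1⟩ ⟨a', ha', h2⟩
      refine ⟨a' * a, mul_pos ha' ha, fun μ hμ => ?_⟩
      rw [h2 μ hμ, h1 μ hμ]
      ring
    · rintro x y - - ⟨a, ha, h1⟩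
      refine ⟨a⁻¹, inv_pos.2 ha, fun μ hμ => ?_⟩
      rw [h1 μ hμ, inv_mul_cancel_left₀ ha.ne']
  -- a regular point
  obtain ⟨x₁, hx₁, hr₁⟩ : ∃ x, x ∈ Z ∧ Reg (d := n + 2) F x := by
    by_contra hcon
    push Not at hcon
    exact hne (hvan μ₀ hμ₀ fun x hx hr => absurd hr (hcon x hx))
  have hL := hD x₁ hx₁ hr₁
  have hpos : ∀ μ : Measure (TangentBundle (𝓡 (n + 2)) X), CC J K μ → μ ≠ 0 →
      0 < ∫ p, qq (κ x₁) J p ∂μ := by
    intro μ hμ hμne
    have := hμ.fin
    have hne0 : ∫ p, qq (κ x₁) J p ∂μ ≠ 0 := by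
      intro h0
      apply hμne
      apply hvan μ hμ
      intro x hx hr
      obtain ⟨a, -, ha⟩ := hR x₁ ⟨hx₁, hr₁⟩ x ⟨hx, hr⟩
      rw [ha μ hμ, h0, mul_zero]
    obtain ⟨u, hu, hu0, hut, hux⟩ := exists_bump (d := n + 2) (hL.isOpen.mem_nhds hL.mem)
    have hI := hL.ipos u hu hu0 hut ⟨x₁, hZb x₁ hx₁, hux⟩
    have hf := hL.formula μ hμ _ (smooth_mul hu hτ) ⟨tsupport u, isClosed_tsupport _, hut, by
      intro z hz
      show u z • τ z = 0
      rw [image_eq_zero_of_notMem_tsupport hz, zero_smul]⟩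
    have hnn : 0 ≤ ∫ p, qq (fun x => u x • τ x : Form (n + 2) X 2) J p ∂μ := by
      apply integral_nonneg_of_ae
      filter_upwards [cc_ae hμ] with p hp
      rw [qq_mul, hKq p hp, mul_one]
      exact hu0 _
    rw [hf] at hnn
    exact lt_of_le_of_ne (nonneg_of_mul_nonneg_right hnn hI) (Ne.symm hne0)
  refine ⟨x₁, N x₁, κ x₁, I x₁, hx₁, hr₁, hL, hpos μ₀ hμ₀ hne, ?_⟩
  intro μ hμ
  refine ⟨hpos μ hμ, ?_⟩
  intro ρ hρ
  apply compare hJ hK hZc hKZ hD hcr hμ hμ₀ (hpt μ hμ) (hpt μ₀ hμ₀) _ hρ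
  intro x hx hr
  obtain ⟨a, -, ha⟩ := hR x₁ ⟨hx₁, hr₁⟩ x ⟨hx, hr⟩
  rw [ha μ hμ, ha μ₀ hμ₀]
  ring

end Pool.Agent.L7h32.OF
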